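import Pool.Agent.W2helper31.GP.Stm3

/-! # Project GP, piece QUAD2. -/

set_option autoImplicit false

namespace Pool.Agent.W2helper71.GP

open Pool.Agent.W2helper31.GP

theorem dg_half : dg (1 / 2) = -(Real.eulerMascheroniConstant + 2 * Real.log 2) := by
  have hpi : (0 : ℝ) < Real.sqrt Real.pi := Real.sqrt_pos.2 Real.pi_pos
  rw [dg, Real.hasDerivAt_Gamma_one_half.deriv, Real.Gamma_one_half_eq]
  field_simp

theorem dg_one : dg 1 = -Real.eulerMascheroniConstant := by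
  rw [dg, Real.hasDerivAt_Gamma_one.deriv, Real.Gamma_one, div_one]

theorem p_QUAD2 : P_QUAD2 := by
  intro hQ
  refine ⟨fun nu hnu => ?_, dg_half⟩
  have hpi : (0 : ℝ) < Real.sqrt Real.pi := Real.sqrt_pos.2 Real.pi_pos
  have g1 : 0 < Real.Gamma (1 / 2 + nu) := Real.Gamma_pos_of_pos (by linarith)
  have g2 : 0 < Real.Gamma (1 + nu) := Real.Gamma_pos_of_pos (by linarith)
  have g3 : 0 < Real.Gamma (1 + 2 * nu) := Real.Gamma_pos_of_pos (by linarith)
  have g4 : 0 < Real.Gamma (1 + 4 * nu) := Real.Gamma_pos_of_pos (by linarith)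
  have hdup := Real.Gamma_mul_Gamma_add_half (nu + 1 / 2)
  have e1 : nu + 1 / 2 + 1 / 2 = 1 + nu := by ring
  have e2 : 2 * (nu + 1 / 2) = 1 + 2 * nu := by ring
  have e3 : (1 : ℝ) - (1 + 2 * nu) = -(2 * nu) := by ring
  rw [e1, e2, e3, add_comm nu (1 / 2)] at hdup
  have hlog := congrArg Real.log hdup
  have h2 : (0 : ℝ) < 2 ^ (-(2 * nu)) := Real.rpow_pos_of_pos two_pos _
  rw [Real.log_mul g1.ne' g2.ne', Real.log_mul (mul_pos g3 h2).ne' hpi.ne',
    Real.log_mul g3.ne' h2.ne', Real.log_rpow two_pos] at hlog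
  have hq := Real.log_le_log (pow_pos g3 4) (hQ nu hnu)
  rw [Real.log_pow, Real.log_mul g4.ne' (pow_pos g2 4).ne', Real.log_pow] at hq
  push_cast at hq
  rw [dg_half, dg_one, Real.Gamma_one_half_eq]
  linarith

end Pool.Agent.W2helper71.GP
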