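import Pool.Agent.W2helper31.GP.Stm4
import Pool.Agent.W2helper88.GP.RMom

set_option autoImplicit false

open MeasureTheory ProbabilityTheory
open scoped ENNReal NNReal

namespace Pool.Agent.W2helper71.GP

open Pool.Agent.W2helper31.GP Pool.Agent.W2helper88.GP

theorem angle (n : ℕ) (hn : 0 < n) (φ nu : ℝ) (hnu : 0 < nu) :
    ∫ θ in Set.Ioo (-Real.pi) Real.pi, |Real.cos (n * θ + φ)| ^ (2 * nu) =
      ∫ θ in (-Real.pi)..Real.pi, |Real.cos θ| ^ (2 * nu) := by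
  have hn0 : (n : ℝ) ≠ 0 := by exact_mod_cast hn.ne'
  have hpi : -Real.pi ≤ Real.pi := by linarith [Real.pi_pos]
  have hcont : Continuous fun θ : ℝ => |Real.cos θ| ^ (2 * nu) :=
    (Real.continuous_cos.abs).rpow_const fun x => Or.inr (by linarith)
  have hper : Function.Periodic (fun θ : ℝ => |Real.cos θ| ^ (2 * nu)) (2 * Real.pi) := by
    intro x
    show |Real.cos (x + 2 * Real.pi)| ^ (2 * nu) = _
    rw [Real.cos_add_two_pi]
  rw [← integral_Ioc_eq_integral_Ioo, ← intervalIntegral.integral_of_le hpi,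
    intervalIntegral.integral_comp_mul_add (fun θ => |Real.cos θ| ^ (2 * nu)) hn0 φ]
  have h1 : (n : ℝ) * Real.pi + φ = (n * (-Real.pi) + φ) + (n : ℤ) • (2 * Real.pi) := by
    rw [zsmul_eq_mul]
    push_cast
    ring
  rw [h1, hper.intervalIntegral_add_zsmul_eq (n : ℤ) _
    (fun t₁ t₂ => hcont.intervalIntegrable t₁ t₂),
    hper.intervalIntegral_add_eq _ (-Real.pi)]
  have h2 : -Real.pi + 2 * Real.pi = Real.pi := by ring
  rw [h2, zsmul_eq_mul, smul_eq_mul, Int.cast_natCast, ← mul_assoc, inv_mul_cancel₀ hn0, one_mul]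

theorem integrand (n : ℕ) (w : ℂ) (nu r θ : ℝ) (hw : ‖w‖ = 1) (hr : 0 < r) :
    |(w * (⟨r * Real.cos θ, r * Real.sin θ⟩ : ℂ) ^ n).re| ^ (2 * nu) *
      ((r * Real.cos θ) ^ 2 + (r * Real.sin θ) ^ 2) ^ (-(n * nu)) =
      |Real.cos (n * θ + w.arg)| ^ (2 * nu) := by
  have h1 : (⟨r * Real.cos θ, r * Real.sin θ⟩ : ℂ) = (r : ℂ) * Complex.exp (θ * Complex.I) := by
    apply Complex.ext
    · simp [Complex.exp_ofReal_mul_I_re]
    · simp [Complex.exp_ofReal_mul_I_im]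
  have h2 : w = Complex.exp (w.arg * Complex.I) := by
    have h := Complex.norm_mul_exp_arg_mul_I w
    rw [hw, Complex.ofReal_one, one_mul] at h
    exact h.symm
  have h3 : w * (⟨r * Real.cos θ, r * Real.sin θ⟩ : ℂ) ^ n =
      ((r ^ n : ℝ) : ℂ) * Complex.exp (((n * θ + w.arg : ℝ) : ℂ) * Complex.I) := by
    rw [h1, mul_pow, ← Complex.exp_nat_mul]
    nth_rewrite 1 [h2]
    push_cast
    rw [show ((n : ℂ) * θ + w.arg) * Complex.I = w.arg * Complex.I + n * (θ * Complex.I) by ring,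
      Complex.exp_add]
    ring
  have h4 : (w * (⟨r * Real.cos θ, r * Real.sin θ⟩ : ℂ) ^ n).re =
      r ^ n * Real.cos (n * θ + w.arg) := by
    rw [h3, Complex.re_ofReal_mul, Complex.exp_ofReal_mul_I_re]
  have h5 : (r * Real.cos θ) ^ 2 + (r * Real.sin θ) ^ 2 = r ^ 2 := by
    have := Real.sin_sq_add_cos_sq θ
    linear_combination r ^ 2 * this
  rw [h4, h5, abs_mul, abs_of_pos (pow_pos hr n), Real.mul_rpow (pow_pos hr n).le (abs_nonneg _)]
  have h6 : (r ^ n : ℝ) ^ (2 * nu) * (r ^ 2 : ℝ) ^ (-(n * nu)) = 1 := by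
    rw [← Real.rpow_natCast r n, ← Real.rpow_natCast r 2, ← Real.rpow_mul hr.le,
      ← Real.rpow_mul hr.le, ← Real.rpow_add hr]
    have : (n : ℝ) * (2 * nu) + ((2 : ℕ) : ℝ) * (-(n * nu)) = 0 := by push_cast; ring
    rw [this, Real.rpow_zero]
  calc (r ^ n : ℝ) ^ (2 * nu) * |Real.cos (n * θ + w.arg)| ^ (2 * nu) * (r ^ 2) ^ (-(n * nu))
      = ((r ^ n : ℝ) ^ (2 * nu) * (r ^ 2 : ℝ) ^ (-(n * nu))) *
          |Real.cos (n * θ + w.arg)| ^ (2 * nu) := by ring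
    _ = _ := by rw [h6, one_mul]

theorem p_ang : P_ANG := by
  intro n w nu hn hw hnu
  have hmeas : Measurable fun x : Fin 2 → ℝ =>
      ENNReal.ofReal (∏ j, gaussianPDFReal 0 1 (x j)) := by
    refine ENNReal.measurable_ofReal.comp (Finset.measurable_prod _ fun j _ => ?_)
    exact (measurable_gaussianPDFReal 0 1).comp (measurable_pi_apply j)
  have hpos : ∀ x : Fin 2 → ℝ, 0 ≤ ∏ j, gaussianPDFReal 0 1 (x j) := fun x =>
    Finset.prod_nonneg fun j _ => gaussianPDFReal_nonneg 0 1 _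
  rw [gam_eq, integral_withDensity_eq_integral_toReal_smul hmeas
      (Filter.Eventually.of_forall fun x => ENNReal.ofReal_lt_top)]
  let H : ℝ × ℝ → ℝ := fun p =>
    ((√(2 * Real.pi))⁻¹ ^ 2 * Real.exp (-(1 / 2) * (p.1 ^ 2 + p.2 ^ 2))) *
      (|(w * (⟨p.1, p.2⟩ : ℂ) ^ n).re| ^ (2 * nu) * (p.1 ^ 2 + p.2 ^ 2) ^ (-(n * nu)))
  have e1 : (fun x : Fin 2 → ℝ => (ENNReal.ofReal (∏ j, gaussianPDFReal 0 1 (x j))).toReal •
      (|(w * toC x ^ n).re| ^ (2 * nu) * (∑ j, x j ^ 2) ^ (-(n * nu)))) =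
      fun x => H (MeasurableEquiv.finTwoArrow x) := by
    funext x
    rw [ENNReal.toReal_ofReal (hpos x), dens, smul_eq_mul]
    simp only [Fin.sum_univ_two]
    rfl
  rw [e1, (volume_preserving_finTwoArrow ℝ).integral_comp
    (MeasurableEquiv.finTwoArrow).measurableEmbedding H, ← integral_comp_polarCoord_symm]
  have e2 : ∀ p ∈ polarCoord.target, p.1 • H (polarCoord.symm p) =
      (p.1 ^ (2 - 1) • rad 2 0 p.1) * |Real.cos (n * p.2 + w.arg)| ^ (2 * nu) := by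
    rintro ⟨r, θ⟩ hp
    rw [polarCoord_target] at hp
    have hr : 0 < r := hp.1
    rw [polarCoord_symm_apply]
    show r • (((√(2 * Real.pi))⁻¹ ^ 2 *
      Real.exp (-(1 / 2) * ((r * Real.cos θ) ^ 2 + (r * Real.sin θ) ^ 2))) *
      (|(w * (⟨r * Real.cos θ, r * Real.sin θ⟩ : ℂ) ^ n).re| ^ (2 * nu) *
        ((r * Real.cos θ) ^ 2 + (r * Real.sin θ) ^ 2) ^ (-(n * nu)))) =
      (r ^ (2 - 1) • rad 2 0 r) * |Real.cos (n * θ + w.arg)| ^ (2 * nu)
    rw [integrand n w nu r θ hw hr]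
    have h5 : (r * Real.cos θ) ^ 2 + (r * Real.sin θ) ^ 2 = r ^ 2 := by
      have := Real.sin_sq_add_cos_sq θ
      linear_combination r ^ 2 * this
    rw [h5, rad, Real.rpow_two, mul_zero, Real.rpow_zero, mul_one, smul_eq_mul, smul_eq_mul]
    norm_num
    ring
  rw [setIntegral_congr_fun polarCoord.open_target.measurableSet e2, polarCoord_target,
    Measure.volume_eq_prod,
    setIntegral_prod_mul (fun r : ℝ => r ^ (2 - 1) • rad 2 0 r)
      (fun θ : ℝ => |Real.cos (n * θ + w.arg)| ^ (2 * nu)), angle n hn w.arg nu hnu,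
    (radial_int 2 (by norm_num) 0 le_rfl).2]
  congr 1
  have h7 : (√(2 * Real.pi))⁻¹ ^ 2 = 1 / (2 * Real.pi) := by
    rw [inv_pow, Real.sq_sqrt (by positivity), one_div]
  rw [h7]
  have h8 : (((2 : ℕ) : ℝ) - 1 + 2 * 0 + 1) / 2 = 1 := by norm_num
  have h9 : -(((2 : ℕ) : ℝ) - 1 + 2 * 0 + 1) / 2 = -1 := by norm_num
  rw [h8, h9, Real.Gamma_one, Real.rpow_neg_one]
  norm_num

end Pool.Agent.W2helper71.GP
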